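import Pool.Agent.W307.SE.Stm
import Pool.Agent.W12.RS.Rank2B

/-! Task TSE-SEL2B: the bound of the 2-Selmer group at a coprime pair (adapted from
`Pool.Agent.W12.RS.Rank2B`). -/

set_option autoImplicit false
set_option linter.unusedSectionVars false

namespace Pool.Agent.W409.SE

open Finset Pool.Agent.W262.RK Pool.Agent.W307.RT Pool.Agent.W571.RT Pool.Agent.W12.RS

theorem sel2b_of (h : Pool.Agent.W307.SE.SELD) (h2 : Pool.Agent.W307.SE.LOCMP) :
    Pool.Agent.W307.SE.SEL2B := by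
  intro J _ _ cls a μ α β z B hc3 ha0 hμ hB ha hev hκ0 hκ hodd hFF X y k u v huv h0 hb hX hy hk
  have hF := hFF u v
  set f := fv α β u v with hf
  have hFne : ∀ k, FM cls a μ f k ≠ 0 := fun k =>
    mul_ne_zero (ha0 k) (prod_ne_zero_iff.2 fun l _ => pow_ne_zero _ (h0 l))
  have hz2 : 2 ≤ z := by have := hB.1; omega
  set s := S1 z y f with hs
  have hmem : s ∈ Tup J z y := S1_mem (fun p hp hzp j l hjl h =>
    fv_not_dvd hB hp hzp huv hjl h.1 h.2)
  have hmd : ∏ j, s j ∣ PP z y := Tup_prod_dvd hmem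
  have hPSof : ∀ p : ℕ, p.Prime → p ∣ ∏ j, s j → p ∈ PS z y := fun p hp h =>
    (prime_dvd_PP hp).1 (h.trans hmd)
  have hnκ : ∀ p : ℕ, p.Prime → p ∣ ∏ j, s j → ∀ j, ¬ (p : ℤ) ∣ kapM cls a μ α β j := by
    intro p hp h j hd
    have h1 := (mem_PS.1 (hPSof p hp h)).1.1
    have h2 := Nat.le_of_dvd (Int.natAbs_pos.2 (hκ0 j)) (Int.natCast_dvd.1 hd)
    have h3 := hκ j
    omega
  have hodd2 : ∀ p : ℕ, p.Prime → p ∣ ∏ j, s j → p ≠ 2 := by
    intro p hp h
    have h1 := (mem_PS.1 (hPSof p hp h)).1.1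
    omega
  have hxc : XCL := Pool.Agent.W342.RK2.xcl
  have hd := h (∏ j, s j) (LLs cls (fun j _ => kapM cls a μ α β j) s ∅)
    (FM cls a μ f 0) (FM cls a μ f 1) (hFne 0) (hFne 1)
    (fun h => hFne 2 (by rw [← hF, h, sub_self]))
    (by
      rw [← Nat.not_even_iff_odd, even_iff_two_dvd]
      intro h
      exact hodd2 2 Nat.prime_two h rfl)
    ((PP_squarefree z y).squarefree_of_dvd hmd)
    (fun p hp hpd => ⟨fun j hj => (hxc _ _ _ p hp (hodd2 p hp hpd)
        (fun _ => hnκ p hp hpd j)).1,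
      fun a1 b1 c1 d1 a2 b2 c2 d2 e1 e2 j hj =>
        (hxc _ _ _ p hp (hodd2 p hp hpd) (fun _ => hnκ p hp hpd j)).2 a1 b1 c1 d1 a2 b2 c2 d2
          (e1 j hj) (e2 j hj)⟩)
    (fun p _ hpd x x' hx' hcurve e1 e2 he1 he2 hsq1 hsq2 j hj => by
      have hpp : p.Prime := Fact.out
      have hjs := (S1_dvd_iff hpp).1 hj
      have hzp := (mem_PS.1 hjs.1).1.1
      have hfin := h2 (cls j) (kapM cls a μ α β j) p (FM cls a μ f 0) (FM cls a μ f 1) (hc3 j)
        (hodd2 p hpp hpd) (hnκ p hpp hpd j) (hFne 0) (hFne 1)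
        (fun h => hFne 2 (by rw [← hF, h, sub_self]))
        (locHM hB ha hev hμ hpp hzp huv hF (h0 j) hjs.2.1 hjs.2.2 (hc3 j) (hnκ p hpp hpd j)
          (hodd j)) x x' hx' hcurve e1 e2 he1 he2 hsq1 hsq2
      have hdec : decide (p ∈ (∅ : Finset ℕ)) = false := by simp
      rw [hdec]
      exact hfin)
  rw [hF] at hd
  refine ⟨hd.1, hd.2.trans (Nat.mul_le_mul_right _ ?_)⟩
  have hc := badMB (cls := cls) (μ := μ) (y := y) hB ha hy h0 hb hk
  rw [← hf, ← hs] at hc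
  calc 4 ^ (((2 * FM cls a μ f 0 * FM cls a μ f 1 *
        FM cls a μ f 2).natAbs.primeFactors.filter (fun q => ¬ q ∣ ∏ j, s j)).card + 2)
      ≤ 4 ^ ((z + 2) + (Fintype.card J * (B * k)) + ∑ j, (S2 z y f j).primeFactors.card) :=
        Nat.pow_le_pow_right (by norm_num) (by omega)
    _ = _ := by
        rw [pow_add, pow_add]
        congr 2
        rw [← pow_mul, ← pow_mul]
        congr 1
        ring

end Pool.Agent.W409.SE
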